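import Mathlib

set_option autoImplicit false

namespace Pool.Agent.Results.MP_285f62_co.Disproof

/-- The blow-up `G(t)`. -/
def blowup {V : Type} (G : SimpleGraph V) (t : ℕ) : SimpleGraph (V × Fin t) where
  Adj x y := G.Adj x.1 y.1
  symm := ⟨fun _ _ h => h.symm⟩
  loopless := ⟨fun _ h => G.irrefl h⟩

/-- The vertex set is partitioned into triangles. -/
def HasTriangleFactor {W : Type} (H : SimpleGraph W) : Prop :=
  ∃ P : Finset (Finset W), (∀ s ∈ P, H.IsNClique 3 s) ∧ ∀ v, ∃! s, s ∈ P ∧ v ∈ s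

def EL : List (Fin 12 × Fin 12) :=
  [(0, 2), (0, 4), (0, 10), (0, 11), (1, 2), (1, 3), (1, 5), (1, 6), (1, 9), (2, 4), (2, 9), (3, 5), (3, 7), (3, 11), (4, 8), (4, 9), (5, 6), (5, 10), (6, 8), (6, 10), (7, 8), (7, 9), (7, 11), (8, 9), (8, 10), (10, 11)]

def G0 : SimpleGraph (Fin 12) where
  Adj x y := (x, y) ∈ EL ∨ (y, x) ∈ EL
  symm := ⟨fun _ _ h => h.symm⟩
  loopless := ⟨by decide +kernel⟩

instance : DecidableRel G0.Adj := fun x y =>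
  inferInstanceAs (Decidable ((x, y) ∈ EL ∨ (y, x) ∈ EL))

instance (t : ℕ) : DecidableRel (blowup G0 t).Adj := fun x y =>
  inferInstanceAs (Decidable (G0.Adj x.1 y.1))

def M {W : Type} (v a b c : W) : Prop := v = a ∨ v = b ∨ v = c

instance {W : Type} [DecidableEq W] (v a b c : W) : Decidable (M v a b c) := by
  unfold M; infer_instance

def R (a b c d e f : Fin 12) : Prop := ∀ v, M v a b c → M v d e f → M d a b c

instance (a b c d e f : Fin 12) : Decidable (R a b c d e f) := by unfold R; infer_instance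

def A3 (a b c : Fin 12) : Prop := G0.Adj a b ∧ G0.Adj a c ∧ G0.Adj b c

instance (a b c : Fin 12) : Decidable (A3 a b c) := by unfold A3; infer_instance

set_option synthInstance.maxSize 4000 in
lemma no0 : ∀ a a', A3 0 a a' → ∀ b b', A3 3 b b' → R 0 a a' 3 b b' → ∀ c c', A3 6 c c' →
    R 0 a a' 6 c c' → R 3 b b' 6 c c' → ∀ d d', A3 9 d d' → R 0 a a' 9 d d' →
    R 3 b b' 9 d d' → ¬ R 6 c c' 9 d d' := by decide +kernel

lemma blk (s : Finset (Fin 12)) (h : G0.IsNClique 3 s) (v : Fin 12) (hv : v ∈ s) :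
    ∃ a b, A3 v a b ∧ ∀ w, w ∈ s ↔ M w v a b := by
  obtain ⟨a, b, c, h1, h2, h3, rfl⟩ := SimpleGraph.is3Clique_iff.mp h
  simp only [Finset.mem_insert, Finset.mem_singleton] at hv ⊢
  unfold M
  rcases hv with rfl | rfl | rfl
  · exact ⟨b, c, ⟨h1, h2, h3⟩, fun w => Iff.rfl⟩
  · exact ⟨a, c, ⟨h1.symm, h3, h2⟩, fun w => by tauto⟩
  · exact ⟨a, b, ⟨h2.symm, h3.symm, h1⟩, fun w => by tauto⟩

lemma no1 : ¬ HasTriangleFactor G0 := by
  rintro ⟨P, h1, h2⟩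
  have hR : ∀ s ∈ P, ∀ t ∈ P, ∀ a b c d e f, (∀ w, w ∈ s ↔ M w a b c) →
      (∀ w, w ∈ t ↔ M w d e f) → R a b c d e f := by
    intro s hs t ht a b c d e f e1 e2 v hv1 hv2
    have : s = t := (h2 v).unique ⟨hs, (e1 v).2 hv1⟩ ⟨ht, (e2 v).2 hv2⟩
    exact (e1 d).1 (this ▸ (e2 d).2 (Or.inl rfl))
  obtain ⟨a, ⟨ha, ha'⟩, -⟩ := h2 0
  obtain ⟨b, ⟨hb, hb'⟩, -⟩ := h2 3
  obtain ⟨c, ⟨hc, hc'⟩, -⟩ := h2 6
  obtain ⟨d, ⟨hd, hd'⟩, -⟩ := h2 9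
  obtain ⟨a1, a2, a3, a4⟩ := blk a (h1 a ha) 0 ha'
  obtain ⟨b1, b2, b3, b4⟩ := blk b (h1 b hb) 3 hb'
  obtain ⟨c1, c2, c3, c4⟩ := blk c (h1 c hc) 6 hc'
  obtain ⟨d1, d2, d3, d4⟩ := blk d (h1 d hd) 9 hd'
  exact no0 a1 a2 a3 b1 b2 b3 (hR a ha b hb _ _ _ _ _ _ a4 b4) c1 c2 c3
    (hR a ha c hc _ _ _ _ _ _ a4 c4) (hR b hb c hc _ _ _ _ _ _ b4 c4) d1 d2 d3
    (hR a ha d hd _ _ _ _ _ _ a4 d4) (hR b hb d hd _ _ _ _ _ _ b4 d4)
    (hR c hc d hd _ _ _ _ _ _ c4 d4)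

lemma fac {W : Type} [DecidableEq W] (H : SimpleGraph W) (k : ℕ) (F : Fin k → W × W × W)
    (h1 : ∀ i, H.Adj (F i).1 (F i).2.1 ∧ H.Adj (F i).1 (F i).2.2 ∧ H.Adj (F i).2.1 (F i).2.2)
    (h2 : ∀ v, ∃ i, M v (F i).1 (F i).2.1 (F i).2.2)
    (h3 : ∀ v i, M v (F i).1 (F i).2.1 (F i).2.2 → ∀ j, M v (F j).1 (F j).2.1 (F j).2.2 → i = j) :
    HasTriangleFactor H := by
  refine ⟨Finset.univ.image (fun i => {(F i).1, (F i).2.1, (F i).2.2}), ?_, fun v => ?_⟩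
  · intro s hs
    obtain ⟨i, -, rfl⟩ := Finset.mem_image.mp hs
    exact SimpleGraph.is3Clique_iff.mpr ⟨_, _, _, (h1 i).1, (h1 i).2.1, (h1 i).2.2, rfl⟩
  · obtain ⟨i, hi⟩ := h2 v
    refine ⟨{(F i).1, (F i).2.1, (F i).2.2},
      ⟨Finset.mem_image.mpr ⟨i, Finset.mem_univ _, rfl⟩, by simpa [M] using hi⟩, ?_⟩
    rintro s ⟨hs, hv⟩
    obtain ⟨j, -, rfl⟩ := Finset.mem_image.mp hs
    rw [h3 v i hi j (by simpa [M] using hv)]

def L2 : Fin 8 → (Fin 12 × Fin 2) × (Fin 12 × Fin 2) × (Fin 12 × Fin 2) :=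
  ![((0, 0), (2, 0), (4, 0)),
    ((0, 1), (10, 0), (11, 0)),
    ((1, 0), (3, 0), (5, 0)),
    ((1, 1), (5, 1), (6, 0)),
    ((2, 1), (4, 1), (9, 0)),
    ((3, 1), (7, 0), (11, 1)),
    ((6, 1), (8, 0), (10, 1)),
    ((7, 1), (8, 1), (9, 1))]

def L3 : Fin 12 → (Fin 12 × Fin (2 + 1)) × (Fin 12 × Fin (2 + 1)) × (Fin 12 × Fin (2 + 1)) :=
  ![((0, 0), (2, 0), (4, 0)),
    ((0, 1), (2, 1), (4, 1)),
    ((0, 2), (10, 0), (11, 0)),
    ((1, 0), (2, 2), (9, 0)),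
    ((1, 1), (3, 0), (5, 0)),
    ((1, 2), (5, 1), (6, 0)),
    ((3, 1), (7, 0), (11, 1)),
    ((3, 2), (7, 1), (11, 2)),
    ((4, 2), (8, 0), (9, 1)),
    ((5, 2), (6, 1), (10, 1)),
    ((6, 2), (8, 1), (10, 2)),
    ((7, 2), (8, 2), (9, 2))]

theorem result :
    ∃ (V : Type) (_ : Fintype V) (G : SimpleGraph V) (t : ℕ), 0 < t ∧
      HasTriangleFactor (blowup G t) ∧ HasTriangleFactor (blowup G (t + 1)) ∧
      ¬ HasTriangleFactor G ∧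
      ∃ c : V → Fin 3, (∀ u v, G.Adj u v → c u ≠ c v) ∧
        ∀ i j, Nat.card {v // c v = i} = Nat.card {v // c v = j} := by
  refine ⟨Fin 12, inferInstance, G0, 2, by norm_num,
    fac _ 8 L2 (by decide +kernel) (by decide +kernel) (by decide +kernel),
    fac _ 12 L3 (by decide +kernel) (by decide +kernel) (by decide +kernel), no1,
    fun v => ⟨v.val % 3, by omega⟩, by decide +kernel, ?_⟩
  simp only [Nat.card_eq_fintype_card]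
  decide +kernel

end Pool.Agent.Results.MP_285f62_co.Disproof
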